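import Pool.Agent.MUB.FIN
import Pool.Agent.MUB.PEN
import Pool.Agent.MUB.MIN
import Pool.Agent.MUB.EQU
import Pool.Agent.MUB.WTS
import Pool.Agent.MUB.HES
import Pool.Agent.MUB.DIM
import Pool.Agent.MUB.CRI
import Pool.Agent.MUB.WEL
import Pool.Agent.MUB.CNT
import Pool.Agent.MUB.THI
import Pool.Agent.MUB.VNT
import Pool.Agent.MUB.HPT
import Pool.Agent.MUB.UNE
import Pool.Agent.MUB.TRA
import Pool.Agent.MUB.ORT
import Pool.Agent.MUB.CONL
import Pool.Agent.MUB.MUB

/-!
# MP_51574c_co: every non-local 4-multinet is the Hesse multinet

Proof.  The weighted line arrangement of a non-local 4-multinet is stable, so there is a hermitian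
metric in which the weighted sum of the projectors on the coefficient vectors of the lines is a
multiple of the identity.  Comparing the sum of the squared absolute values of the inner products of
lines of different classes, computed globally and computed at the base points, shows that every base
point is on exactly one line of each class, that all multiplicities are equal, and that the four
lines at each base point are balanced.  The cross ratio of these four lines is the same at all base
points, which gives inner products of absolute value 1/sqrt 3, and a dimension count gives three
lines in each class: four mutually unbiased bases of C^3, that is, the Hesse configuration.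
-/

set_option autoImplicit false

namespace Pool.Agent.Results.MP_51574c_co.HesseMultinets

open Pool.Agent.MUB

/-- There is a 4-multinet `Hs` consisting of the twelve lines and nine points of the Hesse
configuration, with all multiplicities `1`, and every 4-multinet in the complex projective plane
that is not local is equivalent to it. -/
theorem result :
    ∃ Hs : Multinet 4,
      (Hs.A = hesseClass ∧ Hs.X = hessePoints ∧ (∀ H, Hs.m H = 1) ∧ Hs.d = 3) ∧
      ∀ N : Multinet 4, ¬ N.IsLocal → N.Equivalent Hs :=
  have cnt := cnt_proof
  have wel := wel_proof
  have hpt := hpt_proof
  have thi := thi_proof pen_proof
  fin_proof cnt (wts_proof cnt) min_proof cri_proof tra_proof (equ_proof cnt wel) une_proof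
    (ort_proof thi dim_proof) mub_proof con_proof vnt_proof hpt (hes_proof hpt)

end Pool.Agent.Results.MP_51574c_co.HesseMultinets
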